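import Pool.Agent.Y734.R.Stms

/-!
# Project Y734/R, job TORI: reindexing (helper702)
-/

set_option autoImplicit false

namespace Pool.Agent.Y734.R.TORI

open NumberField Filter Pool.Agent.Y734.M Pool.Agent.Y734.R

theorem tori (h : Pool.Agent.Y734.N.TorStmt) : ToriStmt := by
  intro k ι _ _ _ S hS f hf hinf D
  classical
  set e : ι ≃ Fin (Fintype.card ι) := Fintype.equivFin ι with he
  have hinf' : Set.Infinite (Set.range fun t => fun j : Fin (Fintype.card ι) => f (e.symm j) t) := by
    have h1 : (Set.range fun t => fun j : Fin (Fintype.card ι) => f (e.symm j) t) =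
        (fun v : ι → k => v ∘ e.symm) '' (Set.range fun t => fun i => f i t) := by
      rw [← Set.range_comp]
      rfl
    rw [h1]
    refine hinf.image ?_
    intro v _ w _ hvw
    funext i
    have := congrFun hvw (e i)
    simpa using this
  obtain ⟨U, α, ⟨j, hj⟩, h1, -, h2⟩ := h k S hS (Fintype.card ι) (fun j => f (e.symm j))
    (fun j t => hf _ t) hinf' D
  refine ⟨U, fun i => α (e i), ⟨e.symm j, by simpa using hj⟩, ?_, ?_⟩
  · intro i hi
    apply h1
    intro t
    simpa using hi t
  · intro F hF hFt
    have h3 := h2 (MvPolynomial.rename e F) ((MvPolynomial.totalDegree_rename_le e F).trans hF)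
      (by
        intro t
        rw [MvPolynomial.aeval_rename]
        have : (fun j => f (e.symm j) t) ∘ e = fun i => f i t := by
          funext i; simp
        rw [this]
        exact hFt t)
    filter_upwards [h3] with t ht z hz
    have h4 := ht z hz
    rw [MvPolynomial.aeval_rename] at h4
    have : (fun j => f (e.symm j) t * z ^ α j) ∘ e = fun i => f i t * z ^ α (e i) := by
      funext i; simp
    rw [this] at h4
    exact h4

end Pool.Agent.Y734.R.TORI
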